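import Pool.Agent.Helper14.RG.LC.Asm

set_option autoImplicit false

/-!
# Charts modulo a finite central subgroup: products and cyclic automorphisms
-/

namespace Pool.Agent.Helper14.SPN

open MvPolynomial Pool.Agent.Helper14.RG

/-- elements fixed up to the central subgroup `Z` -/
def fixModZ {G : Type*} [Group G] (Z : Subgroup G) (hZ : Z ≤ Subgroup.center G) (τ : G ≃* G) :
    Subgroup G where
  carrier := {g | ∃ z ∈ Z, τ g = z * g}
  mul_mem' := by
    rintro a b ⟨z, hz, ha⟩ ⟨z', hz', hb⟩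
    refine ⟨z * z', mul_mem hz hz', ?_⟩
    rw [map_mul, ha, hb]
    have := Subgroup.mem_center_iff.mp (hZ hz') a
    calc z * a * (z' * b) = z * (a * z') * b := by simp only [mul_assoc]
      _ = z * (z' * a) * b := by rw [this]
      _ = z * z' * (a * b) := by simp only [mul_assoc]
  one_mem' := ⟨1, one_mem _, by rw [map_one, one_mul]⟩
  inv_mem' := by
    rintro a ⟨z, hz, ha⟩
    refine ⟨z⁻¹, inv_mem hz, ?_⟩
    have := Subgroup.mem_center_iff.mp (hZ (inv_mem hz)) a⁻¹
    rw [map_inv, ha, mul_inv_rev, this]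

lemma mem_fixModZ {G : Type*} [Group G] {Z : Subgroup G} {hZ : Z ≤ Subgroup.center G}
    {τ : G ≃* G} {g : G} : g ∈ fixModZ Z hZ τ ↔ ∃ z ∈ Z, τ g = z * g := Iff.rfl

lemma fixSub_le_fixModZ {G : Type*} [Group G] (Z : Subgroup G) (hZ : Z ≤ Subgroup.center G)
    (τ : G ≃* G) : fixSub τ ≤ fixModZ Z hZ τ := by
  intro g hg
  exact ⟨1, one_mem _, by rw [one_mul]; exact hg⟩

section Quot

variable {k : Type*} [Field k] [IsAlgClosed k] [CharZero k] {C : Type*} [Fintype C]
  [DecidableEq C] {G : C → Type*} [∀ c, Group (G c)]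

theorem LprodZ_quot_rational {A : ∀ c, Subalgebra k (G c → k)} (hirr : ∀ c, Irr (A c))
    (hst : ∀ c, RStable (A c)) (haff : ∀ c, Aff (A c)) (τ : ∀ c, G c ≃* G c)
    (Z : ∀ c, Subgroup (G c)) (H' : ∀ c, Subgroup (G c))
    (hH' : ∀ c g, (∃ z ∈ Z c, τ c g = z * g) → g ∈ H' c)
    {N : C → Type*} [∀ c, Fintype (N c)] [∀ c, DecidableEq (N c)]
    (ch : ∀ c, LChart (A c) (fixSub (τ c)) (H' c) (N c))
    {Q : Type*} [Group Q] (π : (∀ c, G c) →* Q) (hπ : Function.Surjective π)
    (hZ : π.ker ≤ Subgroup.center _) (hker : ∀ g ∈ π.ker, ∀ c, g c ∈ Z c) [Finite π.ker]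
    (σ : Q ≃* Q) (hσ : ∀ g : ∀ c, G c, σ (π g) = π (fun c => τ c (g c))) :
    RationalQuotient (quotAlg (prodAlg A) π : Set (Q → k)) (fixSub σ) := by
  have hA : RStable (prodAlg A) := RStable.prod hst
  have hAff : Aff (prodAlg A) := Aff.prod haff
  have hdom : IsDomain (prodAlg A) := (Irr.prod hirr).isDomain
  have hdomq : IsDomain (quotAlg (prodAlg A) π) := ((Irr.prod hirr).quot π hπ).isDomain
  let HH : Subgroup (∀ c, G c) := (fixSub σ).comap π
  have hHH : ∀ g : ∀ c, G c, g ∈ HH ↔ ∃ z ∈ π.ker, (fun c => τ c (g c)) = z * g := by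
    intro g
    have h0 : g ∈ HH ↔ σ (π g) = π g := Iff.rfl
    rw [h0, hσ]
    constructor
    · intro h
      refine ⟨(fun c => τ c (g c)) * g⁻¹, ?_, by group⟩
      rw [MonoidHom.mem_ker, map_mul, map_inv, h, mul_inv_cancel]
    · rintro ⟨z, hz, h⟩
      rw [h, map_mul, MonoidHom.mem_ker.mp hz, one_mul]
  have h1 : Subgroup.pi Set.univ (fun c => fixSub (τ c)) ≤ HH := by
    intro g hg
    rw [hHH]
    refine ⟨1, one_mem _, ?_⟩
    rw [one_mul]
    funext c
    exact hg c (Set.mem_univ c)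
  have h2c : ∀ g ∈ HH, ∀ c, ∃ z ∈ Subgroup.center (G c), τ c (g c) = z * g c := by
    intro g hg c
    obtain ⟨z, hz, h⟩ := (hHH g).mp hg
    exact ⟨z c, center_apply (hZ hz) c, congrFun h c⟩
  have h2 : HH ≤ Subgroup.pi Set.univ H' := by
    intro g hg c _
    obtain ⟨z, hz, h⟩ := (hHH g).mp hg
    exact hH' c _ ⟨z c, hker z hz c, congrFun h c⟩
  have hcomm : ∀ h ∈ HH, ∀ h' ∈ HH, ∃ c ∈ Subgroup.pi Set.univ (fun c => fixSub (τ c)),
      h' * h = h * h' * c := by
    intro h hh h' hh'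
    refine ⟨(h * h')⁻¹ * (h' * h), ?_, by group⟩
    intro c _
    obtain ⟨z, hz, e1⟩ := h2c h hh c
    obtain ⟨z', hz', e2⟩ := h2c h' hh' c
    show τ c (((h * h')⁻¹ * (h' * h)) c) = ((h * h')⁻¹ * (h' * h)) c
    simp only [Pi.mul_apply, Pi.inv_apply]
    rw [map_mul, map_inv, map_mul, map_mul, e1, e2]
    have c1 := Subgroup.mem_center_iff.mp hz
    have c2 := Subgroup.mem_center_iff.mp hz'
    have e3 : z * h c * (z' * h' c) = (z * z') * (h c * h' c) := by
      calc z * h c * (z' * h' c) = z * (h c * z') * h' c := by simp only [mul_assoc]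
        _ = z * (z' * h c) * h' c := by rw [c2]
        _ = (z * z') * (h c * h' c) := by simp only [mul_assoc]
    have e4 : z' * h' c * (z * h c) = (z * z') * (h' c * h c) := by
      calc z' * h' c * (z * h c) = z' * (h' c * z) * h c := by simp only [mul_assoc]
        _ = z' * (z * h' c) * h c := by rw [c1]
        _ = (z' * z) * (h' c * h c) := by simp only [mul_assoc]
        _ = (z * z') * (h' c * h c) := by rw [c1 z']
    rw [e3, e4]
    group
  have hpow : ∀ h ∈ HH, h ^ Nat.card π.ker ∈ Subgroup.pi Set.univ (fun c => fixSub (τ c)) := by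
    intro h hh c _
    obtain ⟨z, hz, h3⟩ := (hHH h).mp hh
    have e1 : τ c (h c) = z c * h c := congrFun h3 c
    have hzc := center_apply (hZ hz) c
    show τ c ((h ^ Nat.card π.ker) c) = (h ^ Nat.card π.ker) c
    rw [Pi.pow_apply, map_pow, e1]
    have hcm : Commute (z c) (h c) := (Subgroup.mem_center_iff.mp hzc (h c)).symm
    rw [hcm.mul_pow]
    have h4 : z ^ Nat.card π.ker = 1 := by
      have := pow_card_eq_one' (x := (⟨z, hz⟩ : π.ker))
      exact congrArg Subtype.val this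
    have h5 : (z c) ^ Nat.card π.ker = 1 := by
      rw [← Pi.pow_apply, h4]; rfl
    rw [h5, one_mul]
  obtain ⟨r, v, hv, hv2⟩ := (LChart.prod ch HH h1 h2).rational hAff hA hcomm (Nat.card π.ker)
    Nat.card_pos hpow
  obtain ⟨y, hy, hy2⟩ := quot_rational' hA π hπ (fixSub σ) v hv hv2
  exact rationalQuotient_of (hA.quot π hπ) (fixSub σ) y hy hy2

end Quot

section Cyc

variable {k : Type*} [Field k] {S : Type*} [Group S] (m : ℕ) (τ : Fin (m + 1) → (S ≃* S))

lemma thN_memZ {Z : Subgroup S} (hτZ : ∀ j x, τ j x ∈ Z ↔ x ∈ Z) (j : ℕ) {x : S} (hx : x ∈ Z) :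
    thN m τ j x ∈ Z := by
  induction j generalizing x with
  | zero => exact hx
  | succ j ih => exact ih ((hτZ _ _).mpr hx)

/-- elements fixed up to `Z`: `θ_j(h_j)` is in `Z` times `h_0`. -/
lemma thN_modZ {Z : Subgroup S} (hτZ : ∀ j x, τ j x ∈ Z ↔ x ∈ Z) {h z : Fin (m + 1) → S}
    (hz : ∀ j, z j ∈ Z) (hzh : cycAut m τ h = z * h) (j : ℕ) (hj : j ≤ m) :
    ∃ z ∈ Z, thN m τ j (h (Fin.ofNat (m + 1) j)) = z * h 0 := by
  induction j with
  | zero => exact ⟨1, one_mem _, by rw [one_mul]; rfl⟩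
  | succ j ih =>
    obtain ⟨z', hz', h2⟩ := ih (by omega)
    have h3 : τ (Fin.ofNat (m + 1) j) (h (Fin.ofNat (m + 1) (j + 1)))
        = z (Fin.ofNat (m + 1) j) * h (Fin.ofNat (m + 1) j) := by
      have h4 := congrFun hzh (Fin.ofNat (m + 1) j)
      have h5 : Fin.ofNat (m + 1) j + 1 = Fin.ofNat (m + 1) (j + 1) := by
        apply Fin.ext
        simp [Fin.val_add, Fin.ofNat]
      rw [← h5]
      exact h4
    refine ⟨thN m τ j (z (Fin.ofNat (m + 1) j)) * z', mul_mem (thN_memZ m τ hτZ j (hz _)) hz', ?_⟩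
    show thN m τ j (τ (Fin.ofNat (m + 1) j) (h (Fin.ofNat (m + 1) (j + 1)))) = _
    rw [h3, map_mul, h2, mul_assoc]

lemma T_modZ {Z : Subgroup S} (hτZ : ∀ j x, τ j x ∈ Z ↔ x ∈ Z) {h z : Fin (m + 1) → S}
    (hz : ∀ j, z j ∈ Z) (hzh : cycAut m τ h = z * h) :
    ∃ z ∈ Z, thN m τ (m + 1) (h 0) = z * h 0 := by
  obtain ⟨z', hz', h2⟩ := thN_modZ m τ hτZ hz hzh m le_rfl
  have h3 : τ (Fin.ofNat (m + 1) m) (h 0) = z (Fin.ofNat (m + 1) m) * h (Fin.ofNat (m + 1) m) := by
    have h4 := congrFun hzh (Fin.ofNat (m + 1) m)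
    have h5 : Fin.ofNat (m + 1) m + 1 = 0 := by
      apply Fin.ext
      simp [Fin.val_add, Fin.ofNat]
    rw [← h5]
    exact h4
  refine ⟨thN m τ m (z (Fin.ofNat (m + 1) m)) * z', mul_mem (thN_memZ m τ hτZ m (hz _)) hz', ?_⟩
  show thN m τ m (τ (Fin.ofNat (m + 1) m) (h 0)) = _
  rw [h3, map_mul, h2, mul_assoc]

variable {A : Subalgebra k (S → k)} {N0 NC : Type} [Fintype N0] [DecidableEq N0] [Fintype NC]
  [DecidableEq NC]

/-- the family of charts -/
noncomputable def LcycChZ {H H' Z : Subgroup S} (ch : LChart A H H' N0)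
    (cc : LChart A ⊥ Z NC) (j : Fin (m + 1)) :
    LChart A (cycH m H ⊥ j) (cycH m H' Z j) (cycN N0 NC m j) := by
  refine Fin.cases ?_ ?_ j
  · exact ch
  · intro i; exact cc

/-- The chart for the automorphism `(g_j) ↦ (τ_j g_{j+1})`, modulo `Z`. -/
noncomputable def LcycChartZ [Infinite k] (Z : Subgroup S) (hZc : Z ≤ Subgroup.center S)
    (hτZ : ∀ j x, τ j x ∈ Z ↔ x ∈ Z)
    (hmul : ∀ a ∈ A, ∀ (B : Subalgebra k ((Fin (m + 1) → S) → k)) (f f' : (Fin (m + 1) → S) → S),
      (∀ b ∈ A, (fun g => b (f g)) ∈ B) → (∀ b ∈ A, (fun g => b (f' g)) ∈ B) →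
      (fun g => a (f g * f' g)) ∈ B)
    (hinv : ∀ a ∈ A, (fun g => a g⁻¹) ∈ A)
    (hτ : ∀ j, ∀ a ∈ A, (fun g => a (τ j g)) ∈ A) (hτ' : ∀ j, ∀ a ∈ A, (fun g => a ((τ j).symm g)) ∈ A)
    (ch : LChart A (fixSub (thN m τ (m + 1))) (fixModZ Z hZc (thN m τ (m + 1))) N0)
    (cc : LChart A ⊥ Z NC)
    (hZp : Subgroup.pi Set.univ (fun _ : Fin (m + 1) => Z) ≤ Subgroup.center (Fin (m + 1) → S)) :
    LChart (prodAlg (fun _ : Fin (m + 1) => A)) (fixSub (cycAut m τ))
      (fixModZ (Subgroup.pi Set.univ (fun _ : Fin (m + 1) => Z)) hZp (cycAut m τ))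
      (Σ j, cycN N0 NC m j) := by
  have hθ : ∀ j, ∀ a ∈ A, (fun g => a (thN m τ j g)) ∈ A := by
    intro j
    induction j with
    | zero => intro a ha; exact ha
    | succ j ih => intro a ha; exact hτ _ _ (ih a ha)
  have hθ' : ∀ j, ∀ a ∈ A, (fun g => a ((thN m τ j).symm g)) ∈ A := by
    intro j
    induction j with
    | zero => intro a ha; exact ha
    | succ j ih => intro a ha; exact ih _ (hτ' _ _ ha)
  refine LChart.transport (LChart.prod (LcycChZ m ch cc)
    (Subgroup.pi Set.univ (cycH m (fixModZ Z hZc (thN m τ (m + 1))) Z)) ?_ le_rfl)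
    (fixSub (cycAut m τ)) (fixModZ _ hZp (cycAut m τ)) (fixSub_le_fixModZ _ _ _) (cycPhi m τ) ?_
    (cycPhi m τ) ?_ ?_ ?_ ?_
  · intro h hh j _
    have := hh j (Set.mem_univ j)
    revert this
    refine Fin.cases ?_ ?_ j
    · intro h1; exact fixSub_le_fixModZ Z hZc _ h1
    · intro i h1
      have h2 : h i.succ = 1 := Subgroup.mem_bot.mp h1
      show h i.succ ∈ Z
      rw [h2]; exact one_mem _
  · intro a ha
    induction ha using Algebra.adjoin_induction with
    | mem x hx =>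
      obtain ⟨j, a', ha', rfl⟩ := hx
      by_cases hj : j = 0
      · subst hj
        simp only [cycPhi_zero]
        exact mem_prodAlg _ 0 ha'
      · simp only [cycPhi_ne m τ _ hj]
        exact hmul a' ha' _ (fun g => thN m τ j.val (g j)) (fun g => (g 0)⁻¹)
          (fun b hb => mem_prodAlg (fun _ => A) j (hθ _ b hb))
          (fun b hb => mem_prodAlg (fun _ => A) 0 (hinv b hb))
    | algebraMap r => exact Subalgebra.algebraMap_mem _ r
    | add x y _ _ hx hy => exact add_mem hx hy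
    | mul x y _ _ hx hy => exact mul_mem hx hy
  · rintro h ⟨z, hz, hzh⟩ j _
    have hz' : ∀ j, z j ∈ Z := fun j => hz j (Set.mem_univ j)
    have hval : ∀ i : Fin m, (i.succ : Fin (m + 1)).val ≤ m := fun i => by
      have := i.isLt
      simp only [Fin.val_succ]; omega
    refine Fin.cases ?_ ?_ j
    · show cycPhi m τ h 0 ∈ fixModZ Z hZc (thN m τ (m + 1))
      rw [cycPhi_zero]
      exact T_modZ m τ hτZ hz' hzh
    · intro i
      show cycPhi m τ h i.succ ∈ Z
      rw [cycPhi_ne m τ h (Fin.succ_ne_zero i)]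
      obtain ⟨z, hz, h2⟩ := thN_modZ m τ hτZ hz' hzh (i.succ : Fin (m + 1)).val (hval i)
      rw [ofNat_val] at h2
      rw [h2, mul_inv_cancel_right]
      exact hz
  · intro h hh j _
    have hval : ∀ i : Fin m, (i.succ : Fin (m + 1)).val ≤ m := fun i => by
      have := i.isLt
      simp only [Fin.val_succ]; omega
    refine Fin.cases ?_ ?_ j
    · show cycPhi m τ h 0 ∈ fixSub _
      rw [cycPhi_zero]
      exact T_fix m τ hh
    · intro i
      show cycPhi m τ h i.succ ∈ (⊥ : Subgroup S)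
      rw [cycPhi_ne m τ h (Fin.succ_ne_zero i)]
      have h2 := thN_fix m τ hh (i.succ : Fin (m + 1)).val (hval i)
      rw [ofNat_val] at h2
      rw [h2, mul_inv_cancel]
      exact one_mem _
  · intro h2 hh2
    have h20 : thN m τ (m + 1) (h2 0) = h2 0 := hh2 0 (Set.mem_univ 0)
    have h2s : ∀ j : Fin (m + 1), j ≠ 0 → h2 j = 1 := by
      intro j hj
      have := hh2 j (Set.mem_univ j)
      obtain ⟨i, rfl⟩ := Fin.exists_succ_eq.mpr hj
      exact Subgroup.mem_bot.mp this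
    refine ⟨(cycPhi m τ).symm h2, ?_, Equiv.apply_symm_apply _ _⟩
    have hval : ∀ j : Fin (m + 1), (cycPhi m τ).symm h2 j = (thN m τ j.val).symm (h2 0) := by
      intro j
      by_cases hj : j = 0
      · subst hj
        rw [cycPhi_symm_zero]
        rfl
      · rw [cycPhi_symm_ne m τ h2 hj, h2s j hj, one_mul]
    show cycAut m τ ((cycPhi m τ).symm h2) = (cycPhi m τ).symm h2
    funext j
    show τ j ((cycPhi m τ).symm h2 (j + 1)) = (cycPhi m τ).symm h2 j
    rw [hval, hval]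
    by_cases hj : j.val = m
    · have h5 : j + 1 = 0 := by
        apply Fin.ext
        simp [Fin.val_add, hj]
      have h6 : j = Fin.ofNat (m + 1) m := by
        apply Fin.ext
        simp [Fin.ofNat, hj]
      rw [h5]
      apply (thN m τ j.val).injective
      rw [MulEquiv.apply_symm_apply]
      show thN m τ j.val (τ j ((thN m τ 0).symm (h2 0))) = h2 0
      rw [hj]
      have h7 : thN m τ m (τ (Fin.ofNat (m + 1) m) (h2 0)) = h2 0 := h20
      rw [← h6] at h7
      exact h7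
    · have hj' : j.val < m := by have := j.isLt; omega
      have h5 : (j + 1 : Fin (m + 1)).val = j.val + 1 := by
        rw [Fin.val_add_one_of_lt]
        exact Fin.lt_def.mpr (by simpa using hj')
      rw [h5]
      apply (thN m τ j.val).injective
      rw [MulEquiv.apply_symm_apply]
      have h7 : thN m τ (j.val + 1) ((thN m τ (j.val + 1)).symm (h2 0)) = h2 0 :=
        MulEquiv.apply_symm_apply _ _
      have h8 : ∀ x, thN m τ (j.val + 1) x = thN m τ j.val (τ (Fin.ofNat (m + 1) j.val) x) :=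
        fun x => rfl
      rw [h8, ofNat_val] at h7
      exact h7
  · rintro h ⟨z, hz, hzh⟩ g
    have hz' : ∀ j, z j ∈ Z := fun j => hz j (Set.mem_univ j)
    funext j
    by_cases hj : j = 0
    · subst hj
      rw [Pi.mul_apply, cycPhi_zero, cycPhi_zero, cycPhi_zero, Pi.mul_apply]
    · rw [Pi.mul_apply, cycPhi_ne m τ _ hj, cycPhi_ne m τ _ hj, cycPhi_ne m τ _ hj, Pi.mul_apply,
        Pi.mul_apply]
      obtain ⟨z, hz, h2⟩ := thN_modZ m τ hτZ hz' hzh j.val (by have := j.isLt; omega)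
      rw [ofNat_val] at h2
      rw [map_mul, h2, mul_inv_cancel_right, mul_inv_rev]
      have := Subgroup.mem_center_iff.mp (hZc hz)
      calc thN m τ j.val (g j) * (z * h 0) * ((h 0)⁻¹ * (g 0)⁻¹)
          = thN m τ j.val (g j) * (z * (g 0)⁻¹) := by group
        _ = thN m τ j.val (g j) * ((g 0)⁻¹ * z) := by rw [this]
        _ = thN m τ j.val (g j) * (g 0)⁻¹ * z := by group

end Cyc

end Pool.Agent.Helper14.SPN
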