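import Pool.Agent.Helper14.SPN.Z2

set_option autoImplicit false

/-!
# Row Z of the table `spn_mods`: the statement `ST_Z` (of `Helper97/SPN/Fct4.lean`), written out
-/

namespace Pool.Agent.Helper14.SPN

open Pool.Agent.Helper14.RG

universe u w x

theorem st_Z (k : Type u) [Field k] [IsAlgClosed k] [CharZero k] (ι : Type w) [Fintype ι]
    [DecidableEq ι] (S : ι → Type u) [∀ i, Group (S i)]
    (A : ∀ i, Subalgebra k (S i → k)) (hirr : ∀ i, Irr (A i)) (hst : ∀ i, RStable (A i))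
    (haff : ∀ i, Aff (A i)) (hgrp : ∀ i, GrpAlg (A i))
    (P : ∀ i j, (S i ≃* S j) → Prop) (hPr : ∀ i, P i i (MulEquiv.refl _))
    (hPt : ∀ i j l (f : S i ≃* S j) (g : S j ≃* S l), P i j f → P j l g → P i l (f.trans g))
    (hPa : ∀ i j (f : S i ≃* S j), P i j f → ∀ a ∈ A j, (fun x => a (f x)) ∈ A i)
    (hPa' : ∀ i j (f : S i ≃* S j), P i j f → ∀ a ∈ A i, (fun x => a (f.symm x)) ∈ A j)
    (Z : ∀ i, Subgroup (S i)) (hZc : ∀ i, Z i ≤ Subgroup.center (S i)) (hZf : ∀ i, Finite (Z i))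
    (hPZ : ∀ i j (f : S i ≃* S j), P i j f → ∀ x, f x ∈ Z j ↔ x ∈ Z i)
    (M : ℕ) (hM : 0 < M)
    (hch : ∀ i (T : S i ≃* S i), P i i T → (∀ x, ∃ z ∈ Z i, T^[M] x = z * x) →
      ∀ H' : Subgroup (S i), (∀ g, g ∈ H' ↔ ∃ z ∈ Z i, T g = z * g) →
        HasLChart (A i) (fixSub T) H')
    (hcc : ∀ i, HasLChart (A i) ⊥ (Z i))
    (Q : Type x) [Group Q] (π : (∀ i, S i) →* Q) (hπ : Function.Surjective π)
    (hZ : π.ker ≤ Subgroup.center (∀ i, S i)) (hZk : ∀ g ∈ π.ker, ∀ i, g i ∈ Z i)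
    (σ : Q ≃* Q) (hfin : ∀ x, σ^[M] x = x)
    (p : Equiv.Perm ι) (τ : ∀ i, S (p i) ≃* S i) (hτ : ∀ i, P _ _ (τ i))
    (hσ : ∀ g : ∀ i, S i, σ (π g) = π (fun i => τ i (g (p i)))) :
    RationalQuotient (quotAlg (prodAlg A) π : Set (Q → k)) (fixSub σ) :=
  LasmZ_rational A hirr hst haff hgrp P hPr hPt hPa hPa' Z hZc hZf hPZ M hM hch hcc π hπ hZ hZk σ
    hfin p τ hτ hσ

end Pool.Agent.Helper14.SPN
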